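import Mathlib

set_option autoImplicit false

namespace Pool.Agent.Results.MP_325f40_co.Disproof

/-- The 2-distance graph; `edist` is infinite between different components. -/
def dist2 {V : Type} (G : SimpleGraph V) : SimpleGraph V where
  Adj u v := G.edist u v = 2
  symm := ⟨fun u v h => by rwa [SimpleGraph.edist_comm]⟩
  loopless := ⟨fun u h => by simp at h⟩

lemma dist_of {V : Type} (G : SimpleGraph V) (D : V → V → ℕ) (h0 : ∀ u, D u u = 0)
    (h1 : ∀ u v, D u v = 0 → u = v) (h2 : ∀ u w, G.Adj u w → ∀ v, D u v ≤ D w v + 1)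
    (h3 : ∀ u v, D u v ≠ 0 → ∃ w, G.Adj u w ∧ D w v + 1 = D u v) :
    (∀ u v, G.Reachable u v) ∧ ∀ u v, G.dist u v = D u v := by
  have ex : ∀ n u v, D u v = n → ∃ p : G.Walk u v, p.length = n := by
    intro n
    induction n with
    | zero => intro u v h; obtain rfl := h1 u v h; exact ⟨.nil, rfl⟩
    | succ n ih =>
      intro u v h
      obtain ⟨w, ha, hw⟩ := h3 u v (by omega)
      obtain ⟨p, hp⟩ := ih w v (by omega)
      exact ⟨.cons ha p, by simp [hp]⟩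
  have ge : ∀ u v (p : G.Walk u v), D u v ≤ p.length := by
    intro u v p
    induction p with
    | nil => simp [h0]
    | cons ha p ih => exact (h2 _ _ ha _).trans (by simpa using ih)
  refine ⟨fun u v => (ex _ u v rfl).elim fun p _ => ⟨p⟩, fun u v => ?_⟩
  obtain ⟨p, hp⟩ := ex _ u v rfl
  apply le_antisymm
  · rw [← hp]; exact SimpleGraph.dist_le p
  · obtain ⟨q, hq⟩ := SimpleGraph.Reachable.exists_walk_length_eq_dist ⟨p⟩
    rw [← hq]; exact ge u v q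

def D : Fin 12 → Fin 12 → ℕ :=
  ![![0, 1, 1, 1, 1, 1, 2, 2, 2, 2, 2, 3],
    ![1, 0, 1, 2, 2, 1, 1, 1, 2, 3, 2, 2],
    ![1, 1, 0, 1, 2, 2, 2, 1, 1, 2, 3, 2],
    ![1, 2, 1, 0, 1, 2, 3, 2, 1, 1, 2, 2],
    ![1, 2, 2, 1, 0, 1, 2, 3, 2, 1, 1, 2],
    ![1, 1, 2, 2, 1, 0, 1, 2, 3, 2, 1, 2],
    ![2, 1, 2, 3, 2, 1, 0, 1, 2, 2, 1, 1],
    ![2, 1, 1, 2, 3, 2, 1, 0, 1, 2, 2, 1],
    ![2, 2, 1, 1, 2, 3, 2, 1, 0, 1, 2, 1],
    ![2, 3, 2, 1, 1, 2, 2, 2, 1, 0, 1, 1],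
    ![2, 2, 3, 2, 1, 1, 1, 2, 2, 1, 0, 1],
    ![3, 2, 2, 2, 2, 2, 1, 1, 1, 1, 1, 0]]

/-- The icosahedron. -/
def G0 : SimpleGraph (Fin 12) where
  Adj u v := D u v = 1
  symm := ⟨by decide +kernel⟩
  loopless := ⟨by decide +kernel⟩

instance : DecidableRel G0.Adj := fun u v => inferInstanceAs (Decidable (D u v = 1))

lemma hD : (∀ u v, G0.Reachable u v) ∧ ∀ u v, G0.dist u v = D u v :=
  dist_of G0 D (by decide +kernel) (by decide +kernel) (by decide +kernel) (by decide +kernel)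

lemma adj2 (u v : Fin 12) : (dist2 G0).Adj u v ↔ D u v = 2 := by
  show G0.edist u v = 2 ↔ _
  rw [← (hD.1 u v).coe_dist_eq_edist, hD.2]
  exact_mod_cast Iff.rfl

def e : Fin 12 ≃ Fin 12 :=
  ⟨![0, 6, 8, 10, 7, 9, 2, 4, 1, 3, 5, 11], ![0, 8, 6, 9, 7, 10, 1, 4, 2, 5, 3, 11],
    by decide +kernel, by decide +kernel⟩

theorem result :
    ∃ (k : ℕ) (V : Type) (_ : Fintype V) (G : SimpleGraph V) (_ : DecidableRel G.Adj),
      Odd k ∧ Nonempty V ∧ G.IsRegularOfDegree k ∧ Nonempty (dist2 G ≃g G) := by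
  refine ⟨5, Fin 12, inferInstance, G0, inferInstance, by decide, inferInstance, ?_, ⟨⟨e, ?_⟩⟩⟩
  · intro v
    revert v
    decide +kernel
  · intro a b
    rw [adj2]
    revert a b
    decide +kernel

end Pool.Agent.Results.MP_325f40_co.Disproof
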